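import Pool.Agent.TH784.KE.One

/-!
# Unrestricted box averages of a Kolmogorov extension: the base is characteristic
-/

set_option autoImplicit false
set_option linter.unusedSectionVars false

open MeasureTheory Filter Topology
open scoped ENNReal

noncomputable section

namespace Pool.Agent.K3h50.KB

open Pool.Agent.W761.Box (bx bxc BM Good1 bxc_add bxc_sub bxc_mul dz orb)
open Pool.Agent.TH784.KE (Flow KExt zero_complex pos bxc_sum)

/-- The ordered product `g * b_0 ^ m_0 * ⋯ * b_{k-1} ^ m_{k-1}`. -/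
def word {G : Type*} [Group G] {k : ℕ} (g : G) (b : Fin k → G) (m : Fin k → ℕ) : G :=
  g * (List.ofFn fun l => b l ^ m l).prod

section alg

variable {G : Type*} [Group G]

theorem prod_succ {k : ℕ} (b : Fin (k + 1) → G) (m : Fin (k + 1) → ℕ) :
    (List.ofFn fun l => b l ^ m l).prod =
      b 0 ^ m 0 * (List.ofFn fun l => Fin.tail b l ^ Fin.tail m l).prod := by
  rw [List.ofFn_succ, List.prod_cons]
  rfl

/-- The exponents may be shifted by one: the constant factors can be collected on the right. -/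
theorem shift_word : ∀ (k : ℕ) (b : Fin k → G), ∃ (b' : Fin k → G) (h : G), ∀ m : Fin k → ℕ,
    (List.ofFn fun l => b l ^ (m l + 1)).prod = (List.ofFn fun l => b' l ^ m l).prod * h
  | 0, b => ⟨b, 1, fun m => by simp⟩
  | k + 1, b => by
    obtain ⟨b', h, hb⟩ := shift_word k (Fin.tail b)
    refine ⟨Fin.cons (b 0) fun l => b 0 * b' l * (b 0)⁻¹, b 0 * h, fun m => ?_⟩
    have h1 : ∀ (j : ℕ) (c : Fin j → G) (n : Fin j → ℕ),
        (List.ofFn fun l => (b 0 * c l * (b 0)⁻¹) ^ n l).prod =
          b 0 * (List.ofFn fun l => c l ^ n l).prod * (b 0)⁻¹ := by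
      intro j
      induction j with
      | zero => intro c n; simp
      | succ j ih =>
        intro c n
        rw [List.ofFn_succ, List.prod_cons, ih (fun l => c l.succ) (fun l => n l.succ),
          List.ofFn_succ, List.prod_cons, conj_pow]
        group
    rw [prod_succ (fun l => b l) (fun l => m l + 1), prod_succ]
    have h2 := hb (Fin.tail m)
    have h3 : (List.ofFn fun l => Fin.tail (Fin.cons (b 0) fun l => b 0 * b' l * (b 0)⁻¹ :
        Fin (k + 1) → G) l ^ Fin.tail m l).prod =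
        b 0 * (List.ofFn fun l => b' l ^ Fin.tail m l).prod * (b 0)⁻¹ :=
      h1 k b' (Fin.tail m)
    rw [h3]
    have h4 : (List.ofFn fun l => Fin.tail (fun l => b l) l ^ Fin.tail (fun l => m l + 1) l).prod =
        (List.ofFn fun l => b' l ^ Fin.tail m l).prod * h := h2
    rw [h4, Fin.cons_zero, pow_succ]
    group

theorem ell_word {ℓ : G → ℝ} (hℓ : ∀ g h, ℓ (g * h) = ℓ g + ℓ h) :
    ∀ (k : ℕ) (g : G) (b : Fin k → G) (m : Fin k → ℕ),
      ℓ (word g b m) = ℓ g + ∑ l, m l • ℓ (b l) := by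
  have h1 : ℓ 1 = 0 := by
    have := hℓ 1 1
    rw [mul_one] at this
    linarith
  have hp : ∀ (a : G) (n : ℕ), ℓ (a ^ n) = n • ℓ a := by
    intro a n
    induction n with
    | zero => rw [pow_zero, h1, zero_smul]
    | succ n ih => rw [pow_succ, hℓ, ih, succ_nsmul]
  have h2 : ∀ (k : ℕ) (b : Fin k → G) (m : Fin k → ℕ),
      ℓ (List.ofFn fun l => b l ^ m l).prod = ∑ l, m l • ℓ (b l) := by
    intro k
    induction k with
    | zero => intro b m; simp [h1]
    | succ k ih =>
      intro b m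
      rw [List.ofFn_succ, List.prod_cons, hℓ, hp, ih (fun l => b l.succ) (fun l => m l.succ),
        Fin.sum_univ_succ]
  intro k g b m
  rw [word, hℓ, h2]

end alg

variable {X : Type*} {mA mY mX : MeasurableSpace X} {μ : Measure X} [IsProbabilityMeasure μ]
variable {G : Type*} [Group G]
variable {Φ : G →* Equiv.Perm X} {ℓ : G → ℝ}
variable {J : Type*} [DecidableEq J] [Fintype J] {k : ℕ}

theorem orb_word : ∀ (k : ℕ) (b : Fin k → G) (m : Fin k → ℕ) (x : X),
    orb k (fun l => (Φ (b l) : X → X)) m x = Φ (List.ofFn fun l => b l ^ m l).prod x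
  | 0, b, m, x => by simp [orb]
  | k + 1, b, m, x => by
    show (Φ (b 0) : X → X)^[m 0] (orb k (fun l => (Φ (Fin.tail b l) : X → X)) (Fin.tail m) x) = _
    rw [orb_word k (Fin.tail b) (Fin.tail m) x, prod_succ, map_mul, Equiv.Perm.mul_apply, map_pow,
      Equiv.Perm.coe_pow]

/-- The multi-parameter ergodic theorem along ordered products. -/
theorem good_word (hFl : Flow μ Φ) (g : G) (b : Fin k → G) :
    Good1 μ (fun m : Fin k → ℕ => (Φ (word g b fun l => m l + 1) : X → X)) := by
  intro H hH hb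
  obtain ⟨C, hC⟩ := hb
  obtain ⟨b', h, hbh⟩ := shift_word k b
  have h1 := dz k (fun l => (Φ (b' l) : X → X)) (fun l => hFl _) (fun x => H (Φ g x))
    (hH.comp (hFl g).measurable) C fun x => hC _
  have h2 := (hFl h).quasiMeasurePreserving.ae h1
  filter_upwards [h2] with x hx
  obtain ⟨L, hL⟩ := hx
  refine ⟨L, hL.congr fun N => ?_⟩
  congr 1
  funext m
  show H (Φ g (orb k (fun l => (Φ (b' l) : X → X)) m (Φ h x))) = H (Φ (word g b fun l => m l + 1) x)
  rw [orb_word, word, hbh, map_mul, map_mul, Equiv.Perm.mul_apply, Equiv.Perm.mul_apply]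

/-- **The base is characteristic for unrestricted box averages.** -/
theorem box_char (hk : 0 < k) (hK : KExt μ mA mY Φ ℓ) (g : J → G) (b : J → Fin k → G)
    (hb0 : ∀ j l, ℓ (b j l) ≠ 0)
    (hb : ∀ i j, i ≠ j → ∃ l, ℓ (b i l) ≠ ℓ (b j l)) {f e : J → X → ℂ}
    (hf : ∀ j, @BM X mX (f j)) (he : ∀ j, @BM X mX (e j)) (heY : ∀ j, Measurable[mY] (e j))
    (hfe : ∀ j, ∀ B : Set X, MeasurableSet[mY] B → ∫ x in B, (f j x - e j x) ∂μ = 0) :
    ∀ᵐ x ∂μ, Tendsto (fun N => bxc k N fun n =>
      (∏ j, f j (Φ (word (g j) (b j) fun l => n l + 1) x) -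
      ∏ j, e j (Φ (word (g j) (b j) fun l => n l + 1) x))) atTop (𝓝 0) := by
  classical
  have key : ∀ t : Finset J, t ≠ ∅ → ∀ᵐ x ∂μ, Tendsto (fun N => bxc k N fun n =>
      (∏ j ∈ t, (f j (Φ (word (g j) (b j) fun l => n l + 1) x) -
        e j (Φ (word (g j) (b j) fun l => n l + 1) x))) *
        ∏ j ∈ Finset.univ \ t, e j (Φ (word (g j) (b j) fun l => n l + 1) x)) atTop (𝓝 0) := by
    intro t ht
    obtain ⟨j₀, hj₀⟩ := Finset.nonempty_of_ne_empty ht
    obtain ⟨s₀, hs₀⟩ : ∃ s₀ : G, 0 < ℓ s₀ := by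
      rcases lt_or_gt_of_ne (hb0 j₀ ⟨0, hk⟩) with h | h
      · exact ⟨(b j₀ ⟨0, hk⟩)⁻¹, by rw [hK.filt.inv]; linarith⟩
      · exact ⟨b j₀ ⟨0, hk⟩, h⟩
    have hz := zero_complex (k := k) (S := t)
      (q := fun n j => word (g j) (b j) fun l => n l + 1)
      (lam := fun j => ℓ (g j) + ∑ l, ℓ (b j l))
      (θ := fun j l => ℓ (b j l)) hk hK hs₀
      (fun n v => by
        unfold pos
        rw [ell_word hK.filt.hom, add_assoc, ← Finset.sum_add_distrib]
        congr 1
        refine Finset.sum_congr rfl fun l _ => ?_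
        rw [succ_nsmul, add_comm])
      (fun v _ l h => absurd h (hb0 v l)) (fun l => ⟨j₀, hj₀, hb0 j₀ l⟩)
      (fun v _ w _ hvw => hb v w hvw) (fun v => good_word hK.fl (g v) (b v))
      (F := fun j => if j ∈ t then (fun x => f j x - e j x) else e j) (fun v => by
        by_cases hv : v ∈ t
        · simp only [hv, if_true]
          obtain ⟨m₁, C₁, b₁⟩ := hf v
          obtain ⟨m₂, C₂, b₂⟩ := he v
          exact ⟨⟨m₁.sub m₂, C₁ + C₂, fun x => (norm_sub_le _ _).trans
            (add_le_add (b₁ x) (b₂ x))⟩, fun _ => hfe v, fun h => absurd hv h⟩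
        · simp only [hv, if_false]
          exact ⟨he v, fun h => absurd h hv, fun _ => heY v⟩)
    filter_upwards [hz] with x hx
    refine hx.congr fun N => ?_
    congr 1
    funext n
    rw [← Finset.prod_mul_prod_compl t, ← Finset.compl_eq_univ_sdiff]
    congr 1
    · refine Finset.prod_congr rfl fun j hj => ?_
      rw [if_pos hj]
    · refine Finset.prod_congr rfl fun j hj => ?_
      rw [if_neg (Finset.mem_compl.1 hj)]
  have hall : ∀ᵐ x ∂μ, ∀ t : Finset J, t ≠ ∅ → Tendsto (fun N => bxc k N fun n =>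
      (∏ j ∈ t, (f j (Φ (word (g j) (b j) fun l => n l + 1) x) -
        e j (Φ (word (g j) (b j) fun l => n l + 1) x))) *
        ∏ j ∈ Finset.univ \ t, e j (Φ (word (g j) (b j) fun l => n l + 1) x)) atTop (𝓝 0) := by
    rw [ae_all_iff]
    intro t
    by_cases ht : t = ∅
    · exact Eventually.of_forall fun x h => absurd ht h
    · filter_upwards [key t ht] with x hx _
      exact hx
  filter_upwards [hall] with x hx
  have hsum := tendsto_finsetSum ((Finset.univ : Finset J).powerset.erase ∅) fun t ht =>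
    hx t (Finset.ne_of_mem_erase ht)
  rw [Finset.sum_const_zero] at hsum
  refine hsum.congr fun N => ?_
  rw [← bxc_sum]
  congr 1
  funext n
  have h1 := Finset.prod_add (fun j => f j (Φ (word (g j) (b j) fun l => n l + 1) x) -
    e j (Φ (word (g j) (b j) fun l => n l + 1) x))
    (fun j => e j (Φ (word (g j) (b j) fun l => n l + 1) x)) (Finset.univ : Finset J)
  have h2 : ∏ j, (f j (Φ (word (g j) (b j) fun l => n l + 1) x) -
      e j (Φ (word (g j) (b j) fun l => n l + 1) x) +
      e j (Φ (word (g j) (b j) fun l => n l + 1) x)) =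
      ∏ j, f j (Φ (word (g j) (b j) fun l => n l + 1) x) :=
    Finset.prod_congr rfl fun j _ => by ring
  rw [h2, ← Finset.add_sum_erase _ _ (Finset.empty_mem_powerset _)] at h1
  rw [h1, Finset.prod_empty, one_mul, Finset.sdiff_empty]
  ring

/-- The boxes `[1, M_1] × ⋯ × [1, M_k]`. -/
theorem bxc_shift (N : Fin k → ℕ) (a : (Fin k → ℕ) → ℂ) :
    bxc k N (fun n => a fun l => n l + 1) =
      (∏ l, (N l : ℂ))⁻¹ * ∑ m ∈ Fintype.piFinset (fun l => Finset.Icc 1 (N l)), a m := by
  unfold Pool.Agent.W761.Box.bxc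
  congr 1
  refine Finset.sum_nbij' (fun n l => n l + 1) (fun m l => m l - 1) ?_ ?_ ?_ ?_ ?_
  · intro n hn
    rw [Fintype.mem_piFinset] at hn ⊢
    intro l
    have := Finset.mem_range.1 (hn l)
    exact Finset.mem_Icc.2 ⟨by omega, by omega⟩
  · intro m hm
    rw [Fintype.mem_piFinset] at hm ⊢
    intro l
    have := Finset.mem_Icc.1 (hm l)
    exact Finset.mem_range.2 (by omega)
  · intro n _
    funext l
    simp
  · intro m hm
    rw [Fintype.mem_piFinset] at hm
    funext l
    have := Finset.mem_Icc.1 (hm l)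
    show m l - 1 + 1 = m l
    omega
  · intro n _
    rfl

end Pool.Agent.K3h50.KB
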