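import Pool.Agent.K3h50.KB.Box

/-!
# Products that depend on some of the variables only
-/

set_option autoImplicit false
set_option linter.unusedSectionVars false

open MeasureTheory Filter Topology
open scoped ENNReal

noncomputable section

namespace Pool.Agent.K3h50.KB

open Pool.Agent.W761.Box (bx bxc BM Good1 bxc_add bxc_sub bxc_mul dz orb)
open Pool.Agent.TH784.KE (Flow KExt zero_complex pos bxc_sum)

theorem filter_finRange {k : ℕ} (L : Finset (Fin k)) :
    (List.finRange k).filter (· ∈ L) = L.sort (· ≤ ·) := by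
  apply List.Perm.eq_of_pairwise (le := (· < ·))
  · intro a b _ _ h1 h2
    exact absurd h1 (lt_asymm h2)
  · exact (List.pairwise_lt_finRange k).filter _
  · exact (L.sortedLT_sort).pairwise
  · rw [List.perm_ext_iff_of_nodup]
    · intro a; simp
    · exact (List.nodup_finRange k).filter _
    · exact L.sort_nodup _

theorem prod_filter {G : Type*} [Group G] {α : Type*} (p : α → Prop) [DecidablePred p] (f : α → G)
    (h : ∀ a, ¬ p a → f a = 1) : ∀ l : List α,
    (l.map f).prod = ((l.filter p).map f).prod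
  | [] => by simp
  | a :: l => by
    by_cases ha : p a
    · rw [List.filter_cons_of_pos (by simpa using ha), List.map_cons, List.map_cons, List.prod_cons,
        List.prod_cons, prod_filter p f h l]
    · rw [List.filter_cons_of_neg (by simpa using ha), List.map_cons, List.prod_cons, h a ha,
        one_mul, prod_filter p f h l]

/-- leave out the trivial factors -/
theorem word_sub {G : Type*} [Group G] {k : ℕ} (L : Finset (Fin k)) (g : G) (b : Fin k → G)
    (hb : ∀ l, l ∉ L → b l = 1) (m : Fin k → ℕ) :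
    word g b m = word g (b ∘ L.orderEmbOfFin rfl) (m ∘ L.orderEmbOfFin rfl) := by
  unfold word
  congr 1
  rw [List.ofFn_eq_map, List.ofFn_eq_map, prod_filter (· ∈ L) (fun l => b l ^ m l)
    (fun l hl => by rw [hb l hl, one_pow]), filter_finRange,
    ← Finset.listMap_orderEmbOfFin_finRange L rfl, List.map_map]
  rfl

/-- averages of functions of some of the variables -/
theorem bxc_sub_vars {k : ℕ} (L : Finset (Fin k)) (N : Fin k → ℕ) (hN : ∀ l, 1 ≤ N l)
    (a : (Fin L.card → ℕ) → ℂ) :
    bxc k N (fun n => a (n ∘ L.orderEmbOfFin rfl)) =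
      bxc L.card (N ∘ L.orderEmbOfFin rfl) a := by
  classical
  set e : Fin L.card ↪o Fin k := L.orderEmbOfFin rfl with he
  have heL : ∀ l, l ∈ L ↔ ∃ i, e i = l := by
    intro l
    have h1 := Finset.range_orderEmbOfFin L rfl
    rw [← he] at h1
    rw [← Finset.mem_coe, ← h1]
    exact Iff.rfl
  unfold Pool.Agent.W761.Box.bxc
  have h2 : ∀ n ∈ Fintype.piFinset (fun j => Finset.range (N j)),
      n ∘ e ∈ Fintype.piFinset (fun i => Finset.range ((N ∘ e) i)) := by
    intro n hn
    rw [Fintype.mem_piFinset] at hn ⊢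
    exact fun i => hn (e i)
  rw [← Finset.sum_fiberwise_of_maps_to h2]
  have h3 : ∀ n' ∈ Fintype.piFinset (fun i => Finset.range ((N ∘ e) i)),
      ∑ n ∈ (Fintype.piFinset (fun j => Finset.range (N j))).filter (fun n => n ∘ e = n'),
        a (n ∘ e) = (∏ l ∈ Lᶜ, (N l : ℂ)) * a n' := by
    intro n' hn'
    rw [Fintype.mem_piFinset] at hn'
    have h4 : (Fintype.piFinset (fun j => Finset.range (N j))).filter (fun n => n ∘ e = n') =
        Fintype.piFinset fun l => if h : ∃ i, e i = l then {n' h.choose}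
          else Finset.range (N l) := by
      ext n
      rw [Finset.mem_filter, Fintype.mem_piFinset, Fintype.mem_piFinset]
      constructor
      · rintro ⟨h5, h6⟩ l
        by_cases h : ∃ i, e i = l
        · rw [dif_pos h, Finset.mem_singleton, ← h6]
          exact congrArg n h.choose_spec.symm
        · rw [dif_neg h]
          exact h5 l
      · intro h5
        have h6 : ∀ i, n (e i) = n' i := by
          intro i
          have h7 := h5 (e i)
          have h : ∃ i', e i' = e i := ⟨i, rfl⟩
          rw [dif_pos h, Finset.mem_singleton] at h7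
          rw [h7]
          congr 1
          exact e.injective h.choose_spec
        refine ⟨fun l => ?_, funext h6⟩
        by_cases h : ∃ i, e i = l
        · obtain ⟨i, rfl⟩ := h
          rw [h6]
          exact hn' i
        · have h7 := h5 l
          rw [dif_neg h] at h7
          exact h7
    have h5 : ∀ n ∈ (Fintype.piFinset (fun j => Finset.range (N j))).filter
        (fun n => n ∘ e = n'), a (n ∘ e) = a n' := fun n hn => by
      rw [(Finset.mem_filter.1 hn).2]
    rw [Finset.sum_congr rfl h5, Finset.sum_const, nsmul_eq_mul, h4, Fintype.card_piFinset]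
    congr 1
    rw [← Finset.prod_mul_prod_compl L]
    have h6 : ∏ l ∈ L, (if h : ∃ i, e i = l then {n' h.choose}
        else Finset.range (N l) : Finset ℕ).card = 1 := by
      refine Finset.prod_eq_one fun l hl => ?_
      rw [dif_pos ((heL l).1 hl), Finset.card_singleton]
    have h7 : ∏ l ∈ Lᶜ, (if h : ∃ i, e i = l then {n' h.choose}
        else Finset.range (N l) : Finset ℕ).card = ∏ l ∈ Lᶜ, N l := by
      refine Finset.prod_congr rfl fun l hl => ?_
      rw [dif_neg fun h => Finset.mem_compl.1 hl ((heL l).2 h), Finset.card_range]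
    rw [h6, h7, one_mul]
    push_cast
    rfl
  rw [Finset.sum_congr rfl h3, ← Finset.mul_sum, ← Finset.prod_mul_prod_compl L]
  have h8 : ∏ l ∈ L, (N l : ℂ) = ∏ i, (((N ∘ e) i : ℕ) : ℂ) := by
    have h9 : L = Finset.univ.image e := by
      ext l
      rw [heL l, Finset.mem_image]
      simp
    conv_lhs => rw [h9]
    rw [Finset.prod_image fun i _ j _ h => e.injective h]
    rfl
  have h9 : (∏ l ∈ Lᶜ, (N l : ℂ)) ≠ 0 := by
    rw [Finset.prod_ne_zero_iff]
    intro l _
    have := hN l
    exact_mod_cast (by omega : N l ≠ 0)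
  rw [h8, mul_inv, mul_assoc, inv_mul_cancel_left₀ h9]

variable {X : Type*} {mA mY mX : MeasurableSpace X} {μ : Measure X} [IsProbabilityMeasure μ]
variable {G : Type*} [Group G]
variable {Φ : G →* Equiv.Perm X} {ℓ : G → ℝ}
variable {J : Type*} [DecidableEq J] [Fintype J] {k : ℕ}

/-- Products of functions with vanishing expectation on the base, along words in which the letters
are trivial or have nonzero times. -/
theorem zero_some (hK : KExt μ mA mY Φ ℓ) (g : J → G) (b : J → Fin k → G)
    (hb1 : ∀ j l, ℓ (b j l) = 0 → b j l = 1) (hb0 : ∀ j, ∃ l, ℓ (b j l) ≠ 0)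
    (hb : ∀ i j, i ≠ j → ∃ l, ℓ (b i l) ≠ ℓ (b j l)) {t : Finset J} (ht : t.Nonempty)
    {F : J → X → ℂ} (hF : ∀ j, @BM X mX (F j))
    (hF0 : ∀ j, ∀ B : Set X, MeasurableSet[mY] B → ∫ x in B, F j x ∂μ = 0) :
    ∀ᵐ x ∂μ, Tendsto (fun N => bxc k N fun n =>
      ∏ j ∈ t, F j (Φ (word (g j) (b j) fun l => n l + 1) x)) atTop (𝓝 0) := by
  classical
  let L : Finset (Fin k) := Finset.univ.filter fun l => ∃ j ∈ t, ℓ (b j l) ≠ 0
  set e : Fin L.card ↪o Fin k := L.orderEmbOfFin rfl with he
  have heL : ∀ i, e i ∈ L := fun i => Finset.orderEmbOfFin_mem L rfl i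
  have hLe : ∀ l, l ∈ L → ∃ i, e i = l := by
    intro l hl
    have h1 := Finset.range_orderEmbOfFin L rfl
    rw [← he] at h1
    rw [← Finset.mem_coe, ← h1] at hl
    exact hl
  obtain ⟨j₀, hj₀⟩ := ht
  obtain ⟨l₀, hl₀⟩ := hb0 j₀
  have hl₀L : l₀ ∈ L := Finset.mem_filter.2 ⟨Finset.mem_univ _, j₀, hj₀, hl₀⟩
  have hk' : 0 < L.card := Finset.card_pos.2 ⟨l₀, hl₀L⟩
  obtain ⟨s₀, hs₀⟩ : ∃ s₀ : G, 0 < ℓ s₀ := by
    rcases lt_or_gt_of_ne hl₀ with h | h
    · exact ⟨(b j₀ l₀)⁻¹, by rw [hK.filt.inv]; linarith⟩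
    · exact ⟨b j₀ l₀, h⟩
  let b' : J → Fin L.card → G := fun j => if j ∈ t then b j ∘ e else fun _ => 1
  have hb't : ∀ j ∈ t, b' j = b j ∘ e := fun j hj => if_pos hj
  have hz := zero_complex (k := L.card) (S := t)
    (q := fun n j => word (g j) (b' j) fun l => n l + 1)
    (lam := fun j => ℓ (g j) + ∑ l, ℓ (b' j l))
    (θ := fun j l => ℓ (b' j l)) hk' hK hs₀
    (fun n v => by
      unfold pos
      rw [ell_word hK.filt.hom, add_assoc, ← Finset.sum_add_distrib]
      congr 1
      refine Finset.sum_congr rfl fun l _ => ?_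
      rw [succ_nsmul, add_comm])
    (fun v hv l h n i => by
      have h1 : b' v l = 1 := by
        rw [hb't v hv] at h ⊢
        exact hb1 v (e l) h
      show word (g v) (b' v) _ = word (g v) (b' v) _
      unfold word
      congr 3
      funext l'
      by_cases hl : l' = l
      · subst hl
        rw [h1, one_pow, one_pow]
      · show b' v l' ^ (Function.update n l i l' + 1) = b' v l' ^ (n l' + 1)
        rw [Function.update_of_ne hl])
    (fun l => by
      obtain ⟨v, hv, h⟩ := (Finset.mem_filter.1 (heL l)).2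
      exact ⟨v, hv, by rw [hb't v hv]; exact h⟩)
    (fun v hv w hw hvw => by
      obtain ⟨l, hl⟩ := hb v w hvw
      have hlL : l ∈ L := by
        rw [Finset.mem_filter]
        refine ⟨Finset.mem_univ _, ?_⟩
        by_cases h0 : ℓ (b v l) = 0
        · exact ⟨w, hw, fun h => hl (h0.trans h.symm)⟩
        · exact ⟨v, hv, h0⟩
      obtain ⟨i, rfl⟩ := hLe l hlL
      exact ⟨i, by rw [hb't v hv, hb't w hw]; exact hl⟩)
    (fun v => good_word hK.fl (g v) (b' v))
    (F := fun j => if j ∈ t then F j else fun _ => 1) (fun v => by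
      by_cases hv : v ∈ t
      · simp only [hv, if_true]
        exact ⟨hF v, fun _ => hF0 v, fun h => absurd hv h⟩
      · simp only [hv, if_false]
        exact ⟨⟨measurable_const, 1, fun x => by simp⟩, fun h => absurd h hv,
          fun _ => measurable_const⟩)
  filter_upwards [hz] with x hx
  have hcomp : Tendsto (fun N : Fin k → ℕ => N ∘ e) atTop atTop := by
    refine tendsto_atTop_atTop.2 fun c => ⟨fun l => ∑ i, c i, fun N hN i => ?_⟩
    exact (Finset.single_le_sum (fun _ _ => Nat.zero_le _) (Finset.mem_univ i)).trans (hN (e i))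
  have h1 := hx.comp hcomp
  refine h1.congr' ?_
  filter_upwards [eventually_ge_atTop (fun _ : Fin k => 1)] with N hN
  rw [Function.comp_apply, ← bxc_sub_vars L N hN]
  congr 1
  funext n
  rw [← Finset.prod_mul_prod_compl t]
  have h2 : ∏ j ∈ tᶜ, (if j ∈ t then F j else fun _ => 1)
      (Φ (word (g j) (b' j) fun l => (n ∘ e) l + 1) x) = 1 := by
    refine Finset.prod_eq_one fun j hj => ?_
    rw [if_neg (Finset.mem_compl.1 hj)]
  rw [h2, mul_one]
  refine Finset.prod_congr rfl fun j hj => ?_
  rw [if_pos hj, hb't j hj]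
  have h3 : word (g j) (b j ∘ e) (fun l => (n ∘ e) l + 1) = word (g j) (b j) (fun l => n l + 1) := by
    rw [word_sub L (g j) (b j) (fun l hl => by
      apply hb1
      by_contra h
      exact hl (Finset.mem_filter.2 ⟨Finset.mem_univ _, j, hj, h⟩))]
    rfl
  rw [h3]

/-- **The averages for an action without base.** -/
theorem box_const (hK : KExt μ mA mY Φ ℓ) (g : J → G) (b : J → Fin k → G)
    (hb1 : ∀ j l, ℓ (b j l) = 0 → b j l = 1) (hb0 : ∀ j, ∃ l, ℓ (b j l) ≠ 0)
    (hb : ∀ i j, i ≠ j → ∃ l, ℓ (b i l) ≠ ℓ (b j l)) {f : J → X → ℂ} {e : J → ℂ}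
    (hf : ∀ j, @BM X mX (f j))
    (hfe : ∀ j, ∀ B : Set X, MeasurableSet[mY] B → ∫ x in B, (f j x - e j) ∂μ = 0) :
    ∀ᵐ x ∂μ, Tendsto (fun N => bxc k N fun n =>
      (∏ j, f j (Φ (word (g j) (b j) fun l => n l + 1) x) - ∏ j, e j)) atTop (𝓝 0) := by
  classical
  have hall : ∀ᵐ x ∂μ, ∀ t : Finset J, t ≠ ∅ → Tendsto (fun N => bxc k N fun n =>
      (∏ j ∈ t, (f j (Φ (word (g j) (b j) fun l => n l + 1) x) - e j)) *
        ∏ j ∈ Finset.univ \ t, e j) atTop (𝓝 0) := by
    rw [ae_all_iff]
    intro t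
    by_cases ht : t = ∅
    · exact Eventually.of_forall fun x h => absurd ht h
    · have hz := zero_some hK g b hb1 hb0 hb (Finset.nonempty_of_ne_empty ht)
        (F := fun j x => f j x - e j) (fun j => by
          obtain ⟨m₁, C₁, b₁⟩ := hf j
          exact ⟨m₁.sub measurable_const, C₁ + ‖e j‖, fun x => (norm_sub_le _ _).trans
            (add_le_add (b₁ x) le_rfl)⟩) hfe
      filter_upwards [hz] with x hx _
      have h1 := hx.const_mul (∏ j ∈ Finset.univ \ t, e j)
      rw [mul_zero] at h1
      refine h1.congr fun N => ?_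
      rw [← bxc_mul]
      congr 1
      funext n
      rw [mul_comm]
  filter_upwards [hall] with x hx
  have hsum := tendsto_finsetSum ((Finset.univ : Finset J).powerset.erase ∅) fun t ht =>
    hx t (Finset.ne_of_mem_erase ht)
  rw [Finset.sum_const_zero] at hsum
  refine hsum.congr fun N => ?_
  rw [← bxc_sum]
  congr 1
  funext n
  have h1 := Finset.prod_add (fun j => f j (Φ (word (g j) (b j) fun l => n l + 1) x) - e j)
    (fun j => e j) (Finset.univ : Finset J)
  have h2 : ∏ j, (f j (Φ (word (g j) (b j) fun l => n l + 1) x) - e j + e j) =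
      ∏ j, f j (Φ (word (g j) (b j) fun l => n l + 1) x) :=
    Finset.prod_congr rfl fun j _ => by ring
  rw [h2, ← Finset.add_sum_erase _ _ (Finset.empty_mem_powerset _)] at h1
  rw [h1, Finset.prod_empty, one_mul, Finset.sdiff_empty]
  ring

/-- conditional expectation on a trivial σ-algebra -/
theorem triv_int (hY : mY ≤ mX) (h01 : ∀ B, MeasurableSet[mY] B → μ B = 0 ∨ μ B = 1) {f : X → ℂ}
    (hf : Integrable f μ) : ∀ B : Set X, MeasurableSet[mY] B →
      ∫ x in B, f x ∂μ = ∫ _x in B, (∫ y, f y ∂μ) ∂μ := by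
  intro B hB
  rcases h01 B hB with h | h
  · rw [Measure.restrict_eq_zero.2 h, integral_zero_measure, integral_zero_measure]
  · have h1 : ∀ᵐ x ∂μ, x ∈ B := by
      rw [ae_iff]
      exact (prob_compl_eq_zero_iff (hY _ hB)).2 h
    have h2 : μ.restrict B = μ := by
      rw [Measure.restrict_eq_self_of_ae_mem h1]
    rw [h2, integral_const]
    simp

theorem triv_cond (hY : mY ≤ mX) (h01 : ∀ B, MeasurableSet[mY] B → μ B = 0 ∨ μ B = 1) {f : X → ℂ}
    (hf : Integrable f μ) : μ[f | mY] =ᵐ[μ] fun _ => ∫ y, f y ∂μ := by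
  refine (ae_eq_condExp_of_forall_setIntegral_eq hY hf (fun B _ _ => integrableOn_const)
    (fun B hB _ => (triv_int hY h01 hf B hB).symm) ?_).symm
  exact aestronglyMeasurable_const

end Pool.Agent.K3h50.KB
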